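import Mathlib
import Pool.Agent.Lib.helper15.Tree

set_option autoImplicit false

namespace Pool.Agent.Results.MP_b0da28_lc.NoReduction

open Set Topology Pool.Agent.Lib.helper15.Tree

abbrev X := Bool × C × G

def π (x : ℕ → ℕ) : X :=
  (decide (x 0 = 0), fun i => x (2 * i + 1), fun i => Denumerable.ofNat ℤ (x (2 * i + 2)))

def σ (y : X) : ℕ → ℕ := fun n =>
  if n = 0 then (if y.1 then 0 else 1) else
    if n % 2 = 1 then y.2.1 (n / 2) else Encodable.encode (y.2.2 (n / 2 - 1))

lemma πσ (y : X) : π (σ y) = y := by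
  obtain ⟨b, c, g⟩ := y
  refine Prod.ext ?_ (Prod.ext (funext fun i => ?_) (funext fun i => ?_))
  · cases b <;> simp [π, σ]
  · have : (2 * i + 1) / 2 = i := by omega
    simp [π, σ, this]
  · have : (2 * i + 2) / 2 - 1 = i := by omega
    have h2 : (2 * i + 2) % 2 ≠ 1 := by omega
    simp only [π, σ, this, h2, if_false, Nat.add_eq_zero_iff, OfNat.ofNat_ne_zero, and_false]
    exact Denumerable.ofNat_encode _

lemma π_cont : Continuous π :=
  ((continuous_of_discreteTopology (f := fun n : ℕ => decide (n = 0))).comp (continuous_apply 0)).prodMk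
    ((continuous_pi fun _ => continuous_apply _).prodMk (continuous_pi fun _ =>
      (continuous_of_discreteTopology (f := Denumerable.ofNat ℤ)).comp (continuous_apply _)))

lemma σ_cont : Continuous σ := by
  refine continuous_pi fun n => ?_
  unfold σ
  split_ifs
  · exact (continuous_of_discreteTopology (f := fun b : Bool => if b then 0 else 1)).comp continuous_fst
  · fun_prop
  · exact (continuous_of_discreteTopology (f := fun z : ℤ => Encodable.encode z)).comp (by fun_prop)

def E (x y : X) : Prop := x = y ∨ (x.1 ≠ y.1 ∧ x.2.1 = y.2.1 ∧ Br x.2.1 (x.2.2 + y.2.2))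

lemma E_closed : IsClosed {p : X × X | E p.1 p.2} :=
  (isClosed_eq continuous_fst continuous_snd).union
    ((closed_disc (T := fun p : X × X => (p.1.1, p.2.1)) (by fun_prop) fun d => d.1 ≠ d.2).inter
      ((isClosed_eq (by fun_prop) (by fun_prop)).inter
        (br_closed (c := fun p : X × X => p.1.2.1) (w := fun p => p.1.2.2 + p.2.2.2)
          (by fun_prop) (by fun_prop))))

lemma smooth : ∃ φ : X → X, Measurable φ ∧ ∀ x y, E x y ↔ φ x = φ y := by
  classical
  let Γ : Set (C × G) := {p | Br p.1 p.2}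
  have hΓ : IsClosed Γ := br_closed continuous_fst continuous_snd
  have := hΓ.polishSpace
  let e : Γ → C := fun p => p.1.1
  have he : MeasurableEmbedding e := Continuous.measurableEmbedding (by fun_prop) (by
    rintro ⟨⟨c, w⟩, h⟩ ⟨⟨c', w'⟩, h'⟩ (rfl : c = c')
    exact Subtype.ext (Prod.ext rfl (br_unique h h')))
  let W : C → G := Function.extend e (fun p => p.1.2) 0
  have hW : Measurable W := he.measurable_extend (by fun_prop) measurable_const
  have hW' : ∀ c w, Br c w → W c = w := fun c w h => he.injective.extend_apply _ _ ⟨(c, w), h⟩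
  have hD : ∀ c, c ∈ range e ↔ Br c (W c) := fun c =>
    ⟨by rintro ⟨⟨⟨c, w⟩, h⟩, rfl⟩; rw [hW' c w h]; exact h, fun h => ⟨⟨(c, W c), h⟩, rfl⟩⟩
  refine ⟨fun x => if x.1 = true ∧ x.2.1 ∈ range e then (false, x.2.1, W x.2.1 - x.2.2) else x, ?_, ?_⟩
  · refine Measurable.ite ((measurable_fst (measurableSet_singleton true)).inter
      (measurable_snd.fst he.measurableSet_range)) ?_ measurable_id
    exact measurable_const.prodMk (measurable_snd.fst.prodMk
      ((hW.comp measurable_snd.fst).sub measurable_snd.snd))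
  · rintro ⟨b, c, g⟩ ⟨b', c', g'⟩
    simp only [hD, E]
    constructor
    · rintro (h | ⟨h1, rfl, h3⟩)
      · rw [Prod.mk.injEq, Prod.mk.injEq] at h
        obtain ⟨rfl, rfl, rfl⟩ := h
        rfl
      · have h4 := hW' _ _ h3
        cases b <;> cases b' <;> simp_all
    · intro h
      split_ifs at h with h1 h2 h2
      · simp only [Prod.mk.injEq, true_and] at h
        obtain ⟨rfl, h⟩ := h
        left
        rw [h1.1, h2.1, sub_right_inj.1 h]
      · simp only [Prod.mk.injEq] at h
        obtain ⟨rfl, rfl, rfl⟩ := h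
        exact Or.inr ⟨by simp [h1.1], rfl, by simpa using h1.2⟩
      · simp only [Prod.mk.injEq] at h
        obtain ⟨rfl, rfl, rfl⟩ := h
        exact Or.inr ⟨by simp [h2.1], rfl, by simpa using h2.2⟩
      · exact Or.inl h

/-- There is a closed smooth equivalence relation on Baire space with no continuous reduction
to `=⁺`. -/
theorem result : ∃ E : (ℕ → ℕ) → (ℕ → ℕ) → Prop, Equivalence E ∧
    IsClosed {p : (ℕ → ℕ) × (ℕ → ℕ) | E p.1 p.2} ∧
    (∃ g : (ℕ → ℕ) → (ℕ → ℕ), Measurable g ∧ ∀ x y, E x y ↔ g x = g y) ∧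
    ¬ ∃ f : (ℕ → ℕ) → (ℕ → (ℕ → ℕ)), Continuous f ∧
      ∀ x y, E x y ↔ Set.range (f x) = Set.range (f y) := by
  obtain ⟨φ, hφ, H⟩ := smooth
  have hσ : Function.Injective σ := Function.LeftInverse.injective πσ
  refine ⟨fun x y => E (π x) (π y), ?_, E_closed.preimage (f := Prod.map π π) (π_cont.prodMap π_cont),
    ⟨σ ∘ φ ∘ π, σ_cont.measurable.comp (hφ.comp π_cont.measurable), fun x y => ?_⟩, ?_⟩
  · simp only [H]
    exact ⟨fun _ => rfl, Eq.symm, Eq.trans⟩
  · exact (H _ _).trans hσ.eq_iff.symm
  · rintro ⟨f, hf, h⟩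
    obtain ⟨c, g, hc⟩ := main (F := fun p => f (σ (false, p))) (F' := fun p => f (σ (true, p)))
      (hf.comp (σ_cont.comp (by fun_prop))) (hf.comp (σ_cont.comp (by fun_prop)))
      (fun c w g hb => (h _ _).1 (by
        simp only [πσ]
        exact Or.inr ⟨by simp, rfl, by simpa using hb⟩))
    have := (h _ _).2 hc
    simp only [πσ] at this
    rcases this with h1 | h1
    · have := congrArg (fun x : X => x.2.2 0) h1
      simp at this
    · exact h1.1 rfl

end Pool.Agent.Results.MP_b0da28_lc.NoReduction
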